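import Pool.Agent.H64.SyGa4

set_option autoImplicit false

namespace Pool.Agent.Results.MP_e86abc_ag.Three

open MvPolynomial

/-- Coordinates `x_i = inl i`, `y_i = inr i` of affine `2n`-space. -/
abbrev Idx (n : ℕ) := Fin n ⊕ Fin n

variable {K : Type} [Field K] {n : ℕ}

/-- The standard symplectic form. -/
def omega (u v : Idx n → K) : K :=
  ∑ i : Fin n, (u (Sum.inl i) * v (Sum.inr i) - u (Sum.inr i) * v (Sum.inl i))

/-- The polynomial map `(t, x) ↦ F (t, x)`; the variable `none` is the time `t`. -/
noncomputable def act (F : Idx n → MvPolynomial (Option (Idx n)) K) (t : K) (x : Idx n → K) :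
    Idx n → K :=
  fun i => eval (fun o => o.elim t x) (F i)

/-- The differential of `act F t` at the point `x` (Jacobian matrix in the space variables). -/
noncomputable def jac (F : Idx n → MvPolynomial (Option (Idx n)) K) (t : K) (x : Idx n → K) :
    Matrix (Idx n) (Idx n) K :=
  fun i j => eval (fun o => o.elim t x) (pderiv (some j) (F i))

/-- `F` is a nontrivial regular action of the additive group by symplectomorphisms. -/
structure IsSympGa (F : Idx n → MvPolynomial (Option (Idx n)) K) : Prop where
  zero : ∀ x, act F 0 x = x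
  add : ∀ s t x, act F (s + t) x = act F s (act F t x)
  nontriv : ∃ t x, act F t x ≠ x
  symp : ∀ t x u v, omega ((jac F t x).mulVec u) ((jac F t x).mulVec v) = omega u v

open H64.SyGa

lemma omega_eq (u v : Idx n → K) : omega u v = om K n u v := (om_apply K n u v).symm

noncomputable def sh (i0 : Fin n) (a b c : K) : Idx n → MvPolynomial (Option (Idx n)) K :=
  fun i => X (some i) + X none * (C a * X (some (Sum.inr i0)) ^ 2 + C b * X (some (Sum.inr i0)) +
    C c) * C ((Pi.single (Sum.inl i0) 1 : Idx n → K) i)

lemma act_sh (i0 : Fin n) (a b c t : K) (x : Idx n → K) : act (sh i0 a b c) t x =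
    T (om K n) (Pi.single (Sum.inl i0) 1) (fun s => t * (a * s ^ 2 + b * s + c)) x := by
  funext i
  simp [act, sh, T, om_inl]

lemma jac_sh (i0 : Fin n) (a b c t : K) (x u : Idx n → K) : (jac (sh i0 a b c) t x).mulVec u =
    u + (t * (2 * a * x (Sum.inr i0) + b) * u (Sum.inr i0)) • (Pi.single (Sum.inl i0) 1) := by
  funext i
  have : ∀ j, jac (sh i0 a b c) t x i j = (Pi.single i 1 : Idx n → K) j +
      (t * (2 * a * x (Sum.inr i0) + b) * (Pi.single (Sum.inl i0) 1 : Idx n → K) i) *
        (Pi.single (Sum.inr i0) 1 : Idx n → K) j := fun j => by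
    simp only [jac, sh, map_add, Derivation.leibniz, Derivation.leibniz_pow, pderiv_C, pderiv_X,
      smul_eq_mul, map_mul, map_pow, eval_X, eval_C, Pi.single_apply, Option.some.injEq,
      reduceCtorEq, if_false, mul_zero, add_zero, Option.elim_none, Option.elim_some, map_nsmul,
      map_zero, eq_comm (a := j)]
    split_ifs <;> simp only [nsmul_eq_mul, map_one, map_zero] <;> push_cast <;> ring
  simp only [Matrix.mulVec, dotProduct, this, add_mul, Finset.sum_add_distrib, mul_assoc,
    ← Finset.mul_sum, Pi.add_apply, Pi.smul_apply, smul_eq_mul]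
  simp [Pi.single_apply]

lemma sh_ga (i0 : Fin n) (a b c : K) (h : a + b + c ≠ 0) : IsSympGa (sh i0 a b c) where
  zero x := by simp [act_sh, T]
  add s t x := by
    rw [act_sh, act_sh, act_sh, T_comp (om_alt K n)]
    simp only [add_mul]
  nontriv := ⟨1, fun _ => 1, by
    rw [act_sh]
    intro e
    have := congrFun e (Sum.inl i0)
    simp [T, om_inl] at this
    exact h this⟩
  symp t x u v := by
    simp only [omega_eq, jac_sh, map_add, map_smul, LinearMap.add_apply, LinearMap.smul_apply,
      om_alt, om_inl, skew (om_alt K n) u (Pi.single (Sum.inl i0) 1), smul_eq_mul]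
    ring

noncomputable def lin (K : Type) [Field K] (n : ℕ) : Idx n → MvPolynomial (Option (Idx n)) K :=
  fun i => ∑ k ∈ Finset.range (2 * n), ∑ j : Idx n,
    X none ^ k * C (((k.factorial : K)⁻¹ • NN K n ^ k) i j) * X (some j)

lemma act_lin (t : K) (x : Idx n → K) :
    act (lin K n) t x = (E (NN K n) (2 * n) t).mulVec x := by
  funext i
  simp only [act, lin, map_sum, map_mul, map_pow, eval_X, eval_C, Option.elim, E, Matrix.mulVec,
    dotProduct, Matrix.sum_apply, Finset.sum_mul, Matrix.smul_apply (t ^ _), smul_eq_mul]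
  exact Finset.sum_comm

lemma jac_lin (t : K) (x : Idx n → K) : jac (lin K n) t x = E (NN K n) (2 * n) t := by
  ext i j
  simp only [jac, lin, map_sum, E, Matrix.sum_apply, Matrix.smul_apply (t ^ _), smul_eq_mul]
  refine Finset.sum_congr rfl fun k _ => ?_
  rw [Finset.sum_eq_single j]
  · simp [Derivation.leibniz, Derivation.leibniz_pow]
  · intro l _ hl
    simp [Derivation.leibniz, Derivation.leibniz_pow, pderiv_X, Pi.single_apply, hl, hl.symm]
  · simp

lemma lin_ga [CharZero K] (hn : 2 ≤ n) : IsSympGa (lin K n) where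
  zero x := by rw [act_lin, E_zero (NN_nil K n), Matrix.one_mulVec]
  add s t x := by rw [act_lin, act_lin, act_lin, E_add (NN_nil K n), Matrix.mulVec_mulVec]
  nontriv := by
    by_contra hc
    push Not at hc
    let v : Idx n → K := Pi.single (Sum.inl ⟨n - 1, by omega⟩) 1
    have := span_top (NN K n) (rho n) (rho_step K n) _ (rho_lt n) (rho_inj n)
      (Sum.inl ⟨n - 1, by omega⟩) (by simp [rho]) (rho_pred K n) (Submodule.span K {v})
      (fun k hk => coeff_mem_sum _ (2 * n)
        (fun k => ((k.factorial : K)⁻¹ • NN K n ^ k).mulVec v) (fun t => by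
          have e := hc t v
          rw [act_lin] at e
          simp only [E, Matrix.sum_mulVec, Matrix.smul_mulVec] at e ⊢
          rw [e]
          exact Submodule.mem_span_singleton_self v) k hk)
    have h2 : (fun _ => 1 : Idx n → K) ∈ Submodule.span K {v} := this ▸ Submodule.mem_top
    obtain ⟨r, hr⟩ := Submodule.mem_span_singleton.1 h2
    have := congrFun hr (Sum.inr ⟨0, by omega⟩)
    simp [v] at this
  symp t x u v := by rw [jac_lin, omega_eq, omega_eq, om_E]

lemma in_of {F : Fin 3 → Idx n → MvPolynomial (Option (Idx n)) K} (hF : ∀ k, IsSympGa (F k))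
    (k : Fin 3) (t : K) : In (Subgroup.closure
      {g : Equiv.Perm (Idx n → K) | ∃ k t, ∀ x, g x = act (F k) t x}) (act (F k) t) := by
  let g : Equiv.Perm (Idx n → K) :=
    { toFun := act (F k) t
      invFun := act (F k) (-t)
      left_inv := fun x => by rw [← (hF k).add, neg_add_cancel, (hF k).zero]
      right_inv := fun x => by rw [← (hF k).add, add_neg_cancel, (hF k).zero] }
  exact ⟨g, Subgroup.subset_closure ⟨k, t, fun _ => rfl⟩, fun _ => rfl⟩

/-- For every field of characteristic zero and every `n ≥ 2` there are three symplectic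
additive one-parameter subgroups generating an infinitely transitive group on `K^{2n}`. -/
theorem result (K : Type) [Field K] [CharZero K] (n : ℕ) (hn : 2 ≤ n) :
    ∃ F : Fin 3 → Idx n → MvPolynomial (Option (Idx n)) K, (∀ k, IsSympGa (F k)) ∧
      ∀ (m : ℕ) (x y : Fin m → Idx n → K), Function.Injective x → Function.Injective y →
        ∃ h ∈ Subgroup.closure {g : Equiv.Perm (Idx n → K) | ∃ k t, ∀ z, g z = act (F k) t z},
          ∀ i, h (x i) = y i := by
  let i0 : Fin n := ⟨n - 1, by omega⟩
  let F : Fin 3 → Idx n → MvPolynomial (Option (Idx n)) K := ![lin K n, sh i0 0 1 0, sh i0 1 0 1]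
  have hF : ∀ k, IsSympGa (F k) := by
    intro k
    fin_cases k
    · exact lin_ga hn
    · exact sh_ga i0 0 1 0 (by simp)
    · exact sh_ga i0 1 0 1 (by norm_num)
  refine ⟨F, hF, fun m x y hx hy => concrete K n hn _ (fun t => ?_) (fun c => ?_) (fun c => ?_)
    m x y hx hy⟩
  · exact (in_of hF 0 t).congr fun z => (act_lin t z).symm
  · refine (in_of hF 1 c).congr fun z => ?_
    have := act_sh i0 0 1 0 c z
    simp only [zero_mul, zero_add, one_mul, add_zero] at this
    exact this.symm
  · refine (in_of hF 2 c).congr fun z => ?_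
    have := act_sh i0 1 0 1 c z
    simp only [zero_mul, one_mul, add_zero] at this
    exact this.symm

end Pool.Agent.Results.MP_e86abc_ag.Three
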